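import Mathlib
import Pool.Agent.Run7.h166.TS.Aff
import Pool.Agent.Run7.h756.CC.Gaps
import Pool.Agent.Run7.h756.CC.Inter

/-!
# Circles of times whose neighbours differ by isolated exact gaps, for several affine maps at once

Let `S(x) = a x + b`; for `a = 2`, `b = 1` the iterates of a prime form its Cunningham sequence of the first kind.
A number `d` is an `R`-isolated gap if for many primes `p` the `d`-th iterate of `p` is prime, all the other
iterates up to the `(d + R)`-th one are not prime, and `p` is none of the first `R` iterates of a prime: so the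
complete chain of `p` in the sequence has exact length one and the next prime of the sequence comes exactly `d`
steps later.
-/

set_option autoImplicit false

namespace Pool.Agent.Results.MP_77cbc6_nt.CirclesOfIsolatedGaps

open Filter Finset
open Pool.Agent.Run7.h756.CC
open Pool.Agent.Run7.h166.TS (NH NHω rays AdjO adjF_symm adjO_gap OGap It It_zero It_succ Fo Fo_inj Fo_ok Fo_local nhF)

/-- the `j`-th iterate of `x ↦ a x + b` -/
def S (a b : ℤ) (j : ℕ) (x : ℤ) : ℤ := (fun y : ℤ => a * y + b)^[j] x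

open Classical in
/-- the primes `p ≤ N` such that the first prime iterate of `p` is the `d`-th one, the `R` iterates after it are
not prime and `p` is none of the first `R` iterates of a prime -/
noncomputable def starts (a b : ℤ) (R d N : ℕ) : Finset ℕ := (Icc 1 N).filter (fun p => p.Prime ∧
  (S a b d p).toNat.Prime ∧ (∀ j, 0 < j → j < d → ¬ (S a b j p).toNat.Prime) ∧
  (∀ j, d < j → j ≤ d + R → ¬ (S a b j p).toNat.Prime) ∧
  ∀ q j : ℕ, q.Prime → 0 < j → j ≤ R → S a b j q ≠ p)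

/-- `d` is an `R`-isolated gap many times -/
def IsolatedGap (a b : ℤ) (R d : ℕ) : Prop :=
  ∀ η : ℝ, 0 < η → ∃ᶠ N : ℕ in atTop, (N : ℝ) ^ (1 - η) ≤ ((starts a b R d N).card : ℝ)

/-- the distance of two numbers -/
def dist (x y : ℕ) : ℕ := max x y - min x y

/-- the list `l` is a circle for the relation `adj`: its members are different, neighbours are related, the last
and the first member are related, and it is empty or has at least three members -/
def Circle (adj : ℕ → ℕ → Prop) (l : List ℕ) : Prop :=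
  l.Nodup ∧ l.IsChain adj ∧ (∀ x ∈ l.head?, ∀ y ∈ l.getLast?, adj y x) ∧ (l = [] ∨ 3 ≤ l.length)

/-- all members of `V` with at most `C` exceptions are arranged in the disjoint circles `e i` -/
def CoveredByCircles (adj : ℕ → ℕ → Prop) (V : Finset ℕ) (D C : ℕ) : Prop :=
  ∃ e : Fin D → List ℕ, (∀ i, Circle adj (e i)) ∧ (∀ i j, i ≠ j → List.Disjoint (e i) (e j)) ∧
    (∀ i, ∀ x ∈ e i, x ∈ V) ∧ (V.filter (fun x => ∀ i, x ∉ e i)).card ≤ C

theorem It_eq (a b : ℤ) (j : ℕ) (x : ℤ) : It a b j x = S a b j x := by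
  induction j with
  | zero => exact It_zero a b x
  | succ j ih =>
    rw [It_succ, ih]
    unfold S
    rw [Function.iterate_succ_apply']

theorem gap_of {a b : ℤ} {R d : ℕ} (h : OGap a b R d) : IsolatedGap a b R d := by
  classical
  intro η hη
  refine (h η hη).mono fun N hN => hN.trans ?_
  rw [Nat.cast_le]
  refine card_le_card ?_
  intro p hp
  obtain ⟨h1, h2, h3, h4, h5, h6⟩ := mem_filter.1 hp
  simp only [It_eq] at h3 h4 h5 h6
  exact mem_filter.2 ⟨h1, h2, h3, h4, h5, h6⟩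

theorem adj_gap {a b : ℤ} (ha : 2 ≤ a) {R x y : ℕ} (hxy : x ≠ y) (h : AdjO a b R x y) :
    IsolatedGap a b R (dist x y) := gap_of (adjO_gap ha hxy h)

theorem nh_system (K : ℕ) (hK : ∀ f : ℕ → ℤ × ℤ, Function.Injective f →
    (∀ j, 1 ≤ (f j).1 ∧ IsCoprime (f j).1 (f j).2) → ∀ R : ℕ, ∀ X₀ : Fin 4 × Fin K → ℕ,
    Function.Injective X₀ → (∀ u v, u ≠ v → X₀ u ≤ X₀ v → R < X₀ v - X₀ u) →
    (∀ p : ℕ, p.Prime → p ≤ 4 → ∃ r : ℤ, ∀ u, ¬ (p : ℤ) ∣ (f (X₀ u)).1 * r + (f (X₀ u)).2) →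
    ∃ u v : Fin 4 × Fin K, u.1 ≠ v.1 ∧ Pool.Agent.Run7.h166.TS.AdjF f R (X₀ u) (X₀ v))
    {a b : ℤ} (ha : 2 ≤ a) (hab : IsCoprime a b) {R : ℕ} {V : Set ℕ} {f : ℕ → ℕ}
    (hsep : ∀ s ∈ V, ∀ t ∈ V, s ≠ t → R < dist (f s) (f t))
    (hloc : ∀ p : ℕ, p = 2 ∨ p = 3 → (p : ℤ) ∣ a - 1 → ¬ (p : ℤ) ∣ b → ∃ c : ℕ, ∀ v ∈ V, ¬ f v ≡ c [MOD p])
    (X : Fin 4 × Fin K → ℕ) (hX : Function.Injective X) (hXV : ∀ u, X u ∈ V) :
    ∃ u v : Fin 4 × Fin K, u.1 ≠ v.1 ∧ AdjO a b R (f (X u)) (f (X v)) := by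
  refine hK (Fo a b) (Fo_inj ha b) (Fo_ok ha hab) R (fun u => f (X u) + R) ?_ ?_ ?_
  · intro u v huv
    by_contra hne
    have h1 := hsep _ (hXV u) _ (hXV v) (fun h => hne (hX h))
    have h2 : f (X u) = f (X v) := by simpa using huv
    rw [h2] at h1
    unfold dist at h1
    simp at h1
  · intro u v huv h'
    have h1 : f (X u) ≤ f (X v) := by simpa using h'
    have h2 := hsep _ (hXV u) _ (hXV v) (fun h => huv (hX h))
    unfold dist at h2
    rw [max_eq_right h1, min_eq_left h1] at h2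
    show R < f (X v) + R - (f (X u) + R)
    omega
  · intro p hp hp4
    obtain ⟨r, hr⟩ := Fo_local hab hp (fun w => ∃ v ∈ V, w = f v + R) (by
      intro h1 h2
      obtain ⟨c, hc⟩ := hloc p (by
        have := hp.two_le
        interval_cases p
        · exact Or.inl rfl
        · exact Or.inr rfl
        · exact absurd hp (by norm_num)) h1 h2
      refine ⟨c + R, ?_⟩
      rintro w ⟨v, hv, rfl⟩ hw
      exact hc v hv (Nat.ModEq.add_right_cancel' R hw))
    exact ⟨r, fun u => hr _ ⟨X u, hXV u, rfl⟩⟩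

theorem isChain_mem {R S : ℕ → ℕ → Prop} {V : Finset ℕ} (h : ∀ x ∈ V, ∀ y ∈ V, x ≠ y → R x y → S x y)
    (l : List ℕ) : l.Nodup → (∀ x ∈ l, x ∈ V) → l.IsChain R → l.IsChain S := by
  induction l with
  | nil => exact fun _ _ _ => List.isChain_nil
  | cons x l ih =>
    intro hn hl hc
    cases l with
    | nil => exact List.isChain_singleton _
    | cons y l =>
      rw [List.isChain_cons_cons] at hc ⊢
      rw [List.nodup_cons] at hn
      exact ⟨h x (hl x (by simp)) y (hl y (by simp)) (fun h => hn.1 (by rw [h]; simp)) hc.1,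
        ih hn.2 (fun z hz => hl z (by simp [hz])) hc.2⟩

/-- **Circles for `m` affine maps and `m` families of times at once.** -/
theorem result (m : ℕ) (hm : 1 ≤ m) : ∃ D C : ℕ, (m = 1 → D = 3) ∧ (m = 2 → D = 17) ∧
    -- (1) finite sets
    (∀ (V : Finset ℕ) (a b : Fin m → ℤ) (R : Fin m → ℕ) (f : Fin m → ℕ → ℕ),
      (∀ i, 2 ≤ a i ∧ IsCoprime (a i) (b i)) → (∀ i, ∀ s ∈ V, ∀ t ∈ V, s ≠ t → R i < dist (f i s) (f i t)) →
      (∀ i, ∀ p : ℕ, p = 2 ∨ p = 3 → (p : ℤ) ∣ a i - 1 → ¬ (p : ℤ) ∣ b i →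
        ∃ c : ℕ, ∀ v ∈ V, ¬ f i v ≡ c [MOD p]) →
      CoveredByCircles (fun x y => ∀ i, IsolatedGap (a i) (b i) (R i) (dist (f i x) (f i y))) V D C) ∧
    -- (2) infinite sets
    (∀ (V : Set ℕ), V.Infinite → ∀ (a b : Fin m → ℤ) (R : Fin m → ℕ) (f : Fin m → ℕ → ℕ),
      (∀ i, 2 ≤ a i ∧ IsCoprime (a i) (b i)) → (∀ i, ∀ s ∈ V, ∀ t ∈ V, s ≠ t → R i < dist (f i s) (f i t)) →
      (∀ i, ∀ p : ℕ, p = 2 ∨ p = 3 → (p : ℤ) ∣ a i - 1 → ¬ (p : ℤ) ∣ b i →
        ∃ c : ℕ, ∀ v ∈ V, ¬ f i v ≡ c [MOD p]) →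
      ∃ e : Fin D → ℕ → ℕ, (∀ j n, e j n ∈ V) ∧ Function.Injective (fun u : Fin D × ℕ => e u.1 u.2) ∧
        (V \ Set.range (fun u : Fin D × ℕ => e u.1 u.2)).Finite ∧
        ∀ j n i, IsolatedGap (a i) (b i) (R i) (dist (f i (e j n)) (f i (e j (n + 1))))) := by
  classical
  obtain ⟨D, hD1, hD2, hD0, hRP⟩ : ∃ D : ℕ, (m = 1 → D = 3) ∧ (m = 2 → D = 17) ∧ 1 ≤ D ∧ RP m 3 (D + 1) := by
    by_cases h1 : m = 1
    · subst h1
      exact ⟨3, fun _ => rfl, fun h => by omega, by norm_num, rp_one 3⟩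
    by_cases h2 : m = 2
    · subst h2
      exact ⟨17, fun h => by omega, fun _ => rfl, by norm_num, rp_two⟩
    · obtain ⟨R, hR1, hR⟩ := rp_exists m 3
      have hR4 : 4 ≤ R := by
        have : NeZero m := ⟨by omega⟩
        obtain ⟨T, i, hT, -⟩ := hR (fun _ _ => 0) (fun _ _ => rfl)
        have := card_le_univ T
        rw [Fintype.card_fin] at this
        omega
      exact ⟨R - 1, fun h => absurd h h1, fun h => absurd h h2, by omega, by
        rwa [Nat.sub_add_cancel hR1]⟩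
  obtain ⟨K, hK, hNH⟩ := nhF
  obtain ⟨K', hK', hint⟩ := nh_inter (K := K) hm hRP hK
  obtain ⟨C, hC⟩ := circles_inter (K := K) hm hRP hK
  refine ⟨D, C, hD1, hD2, ?_, ?_⟩
  · intro V a b R f hab hsep hloc
    obtain ⟨e, ⟨he1, he2, he3⟩, hc⟩ := hC (fun i x y => AdjO (a i) (b i) (R i) (f i x) (f i y))
      (fun i x y h => adjF_symm _ _ _ _ h) id Function.injective_id V
      (fun i X hX hXV => nh_system K hNH (hab i).1 (hab i).2 (V := (V : Set ℕ))
        (fun s hs t ht => hsep i s (mem_coe.1 hs) t (mem_coe.1 ht))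
        (fun p hp h1 h2 => by
          obtain ⟨c, hc⟩ := hloc i p hp h1 h2
          exact ⟨c, fun v hv => hc v (mem_coe.1 hv)⟩) X hX (fun u => mem_coe.2 (hXV u)))
    have key : ∀ x ∈ V, ∀ y ∈ V, x ≠ y → (∀ i, AdjO (a i) (b i) (R i) (f i x) (f i y)) →
        ∀ i, IsolatedGap (a i) (b i) (R i) (dist (f i x) (f i y)) := by
      intro x hx y hy hxy h i
      refine adj_gap (hab i).1 ?_ (h i)
      intro h1
      have h2 := hsep i x hx y hy hxy
      rw [h1] at h2
      unfold dist at h2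
      simp at h2
    refine ⟨e, fun j => ⟨(he1 j).1, isChain_mem key _ (he1 j).1 (he3 j) (he1 j).2.1, ?_, (he1 j).2.2.1⟩,
      he2, he3, hc⟩
    intro x hx y hy
    refine key y (he3 j y (List.mem_of_getLast? hy)) x (he3 j x (List.mem_of_head? hx)) ?_
      ((he1 j).2.2.2 x hx y hy)
    rintro rfl
    rcases (he1 j).2.2.1 with h1 | h1
    · rw [h1] at hx
      simp at hx
    · have hn := (he1 j).1
      cases hl : e j with
      | nil => rw [hl] at h1; simp at h1
      | cons z l =>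
        rw [hl] at hx hy hn h1
        have e1 : z = y := by simpa using hx
        subst e1
        have h2 : l ≠ [] := by
          rintro rfl
          simp at h1
        rw [List.nodup_cons] at hn
        apply hn.1
        rw [List.getLast?_cons_of_ne_nil h2] at hy
        exact List.mem_of_getLast? hy
  · intro V hV a b R f hab hsep hloc
    set v : ℕ → ℕ := Nat.nth (· ∈ V) with hv
    have hVinf : (Set.ofPred (· ∈ V)).Infinite := hV
    have hvm : StrictMono v := Nat.nth_strictMono hVinf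
    have hvV : ∀ n, v n ∈ V := fun n => Nat.nth_mem_of_infinite hVinf n
    have hvs : ∀ x ∈ V, ∃ n, v n = x := fun x hx => ⟨Nat.count (· ∈ V) x, Nat.nth_count hx⟩
    have hNHω : NHω (fun i j => ∀ l, AdjO (a l) (b l) (R l) (f l (v i)) (f l (v j))) D K' 0 := by
      intro X hX _
      have h1 := hint (fun i x y => AdjO (a i) (b i) (R i) (f i x) (f i y))
        (fun i x y h => adjF_symm _ _ _ _ h) (univ.image (fun u => v (X u))) (fun i Y hY hYV =>
          nh_system K hNH (hab i).1 (hab i).2 (V := V) (hsep i) (hloc i) Y hY (fun u => by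
            obtain ⟨w, -, hw⟩ := mem_image.1 (hYV u)
            rw [← hw]
            exact hvV _))
      exact h1 (fun u => v (X u)) (hvm.injective.comp hX) (fun u => mem_image_of_mem _ (mem_univ _))
    obtain ⟨e, he1, he2, he3⟩ := rays (fun i j hij l => adjF_symm _ _ _ _ (hij l)) hD0 hNHω
    refine ⟨fun i n => v (e i n), fun i n => hvV _, hvm.injective.comp he1, ?_, fun j n i => ?_⟩
    · refine (he2.image v).subset ?_
      rintro x ⟨hx1, hx2⟩
      obtain ⟨n, rfl⟩ := hvs x hx1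
      refine ⟨n, ?_, rfl⟩
      rintro ⟨p, hp⟩
      exact hx2 ⟨p, by simp only at hp ⊢; rw [hp]⟩
    · refine adj_gap (hab i).1 ?_ (he3 j n i)
      intro h1
      have hne : v (e j n) ≠ v (e j (n + 1)) := by
        intro h3
        have h4 : ((j, n) : Fin D × ℕ) = (j, n + 1) := he1 (hvm.injective h3)
        simp at h4
      have h2 := hsep i _ (hvV _) _ (hvV _) hne
      rw [h1] at h2
      unfold dist at h2
      simp at h2

end Pool.Agent.Results.MP_77cbc6_nt.CirclesOfIsolatedGaps
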