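import Mathlib
import Pool.Agent.Run7.h166.TS.Aff

/-!
# Every set of times in three lists of exact gaps of Cunningham sequences of the first kind

`c_n(p) = 2 ^ n (p + 1) - 1`. Call `d ≥ 1` an `R`-isolated gap if for many primes `p` (at least `N ^ (1 - η)`
of the primes `p ≤ N`, for every `η > 0` and arbitrarily large `N`) the number `c_d(p)` is prime, the numbers
`c_1(p), …, c_(d-1)(p)` are composite, the `R` numbers after `c_d(p)` are composite and `p` is none of the
numbers `c_1(q), …, c_R(q)` for any prime `q`. For `R = 1` and `d ≥ 2` both primes are complete Cunningham chains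
of exact length one; the question of chains of exact length `2` is whether, with suitable compositeness, `d = 1` is
such a gap (`R = 0`).

There is an absolute constant `C` such that for every `R` and for EVERY finite set `V` of times, any two of which
differ by more than `R` (for `R = 0` this is no condition), all members of `V` with at most `C` exceptions can be
arranged in THREE lists such that the difference of any two neighbours of a list is an `R`-isolated gap. Every
infinite set of times with this separation property is, up to finitely many elements, the range of three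
sequences whose successive differences are `R`-isolated gaps. There is no condition on `V` at any prime. If the
conjecture on exact patterns is true, then any arrangement in one list, without exceptions, is possible.

Known were proportions: at least `5/9 - ε` of the multiples of suitable numbers `N` are differences of this
kind (with at most `J` primes between), `1/2 - ε` are exact gaps. Such a statement says nothing on a given sparse
set of times, for instance the powers of two or the factorials.

Proof. Coloured Maynard-Tao theorem with a constant above one quarter and exact patterns (starting files,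
`Pool.Agent.TH899.UG.Uni.exactU`): of any four long blocks of times two contain hits; the fixed point `-1` of
`x ↦ 2 x + 1` makes the forms `2 ^ t n + 2 ^ t - 1` admissible, and the hits which are consecutive and in
different blocks form a gap. So the graph of the gaps on `V` has no four-partite holes, and it is
covered by three paths up to a bounded number of vertices (nonprincipal ultrafilters for the infinite case).
-/

set_option autoImplicit false

namespace Pool.Agent.Results.MP_77cbc6_nt.ExactGapsThreeLists

open Filter Finset

/-- the Cunningham sequence of the first kind generated from `p` -/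
def c (n p : ℕ) : ℕ := 2 ^ n * (p + 1) - 1

open Classical in
/-- the primes `p ≤ N` such that `c_d(p)` is prime, `c_1(p), …, c_(d-1)(p)` and the `R` numbers after `c_d(p)` are
not prime, and `p` is none of the numbers `c_1(q), …, c_R(q)` for a prime `q` -/
noncomputable def starts (R d N : ℕ) : Finset ℕ := (Icc 1 N).filter (fun p => p.Prime ∧ (c d p).Prime ∧
  (∀ j, 0 < j → j < d → ¬ (c j p).Prime) ∧ (∀ j, d < j → j ≤ d + R → ¬ (c j p).Prime) ∧
  ∀ q j : ℕ, q.Prime → 0 < j → j ≤ R → c j q ≠ p)

/-- `d` is an `R`-isolated gap many times -/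
def IsolatedGap (R d : ℕ) : Prop :=
  ∀ η : ℝ, 0 < η → ∃ᶠ N : ℕ in atTop, (N : ℝ) ^ (1 - η) ≤ ((starts R d N).card : ℝ)

theorem It_eq (j p : ℕ) : Run7.h166.TS.It 2 1 j p = (c j p : ℤ) := by
  have h1 := Run7.h166.TS.geo 2 j
  have h2 : 1 ≤ 2 ^ j * (p + 1) := Nat.mul_pos (by positivity) (by omega)
  unfold c Run7.h166.TS.It
  rw [Nat.cast_sub h2]
  push_cast
  linarith

theorem gap_of {R d : ℕ} (h : Run7.h166.TS.OGap 2 1 R d) : IsolatedGap R d := by
  classical
  intro η hη
  refine (h η hη).mono fun N hN => hN.trans ?_
  rw [Nat.cast_le]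
  refine card_le_card ?_
  intro p hp
  obtain ⟨h1, h2, h3, h4, h5, h6⟩ := mem_filter.1 hp
  simp only [It_eq, Int.toNat_natCast] at h3 h4 h5 h6
  refine mem_filter.2 ⟨h1, h2, h3, h4, h5, fun q j hq hj hjR hqj => h6 q j hq hj hjR ?_⟩
  exact_mod_cast hqj

/-- **Every set of times in three lists of isolated gaps.** -/
theorem result :
    (∃ C : ℕ, ∀ R : ℕ, ∀ V : Finset ℕ, (∀ s ∈ V, ∀ t ∈ V, s < t → R < t - s) →
      ∃ e : Fin 3 → List ℕ, (∀ i, (e i).Nodup) ∧ (∀ i j, i ≠ j → List.Disjoint (e i) (e j)) ∧
        (∀ i, ∀ x ∈ e i, x ∈ V) ∧ (V.filter (fun x => ∀ i, x ∉ e i)).card ≤ C ∧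
        ∀ i, (e i).IsChain (fun s t => IsolatedGap R (max s t - min s t))) ∧
    (∀ R : ℕ, ∀ V : Set ℕ, V.Infinite → (∀ s ∈ V, ∀ t ∈ V, s < t → R < t - s) →
      ∃ e : Fin 3 → ℕ → ℕ, (∀ i n, e i n ∈ V) ∧
        Function.Injective (fun p : Fin 3 × ℕ => e p.1 p.2) ∧
        (V \ Set.range (fun p : Fin 3 × ℕ => e p.1 p.2)).Finite ∧
        ∀ i n, IsolatedGap R (max (e i n) (e i (n + 1)) - min (e i n) (e i (n + 1)))) := by
  have hno : ∀ p : ℕ, p.Prime → ¬ (p : ℤ) ∣ (2 : ℤ) - 1 := by
    intro p hp h
    have h1 : (p : ℤ) ∣ ((1 : ℕ) : ℤ) := by simpa using h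
    exact hp.one_lt.ne' (Nat.dvd_one.1 (Int.natCast_dvd_natCast.1 h1))
  constructor
  · obtain ⟨C, hC⟩ := Run7.h166.TS.aff_lists
    refine ⟨C, fun R V hV => ?_⟩
    obtain ⟨e, h1, h2, h3, h4, h5⟩ := hC 2 1 le_rfl isCoprime_one_right R V hV
      (fun p hp _ h => absurd h (hno p hp))
    exact ⟨e, h1, h2, h3, le_trans (le_of_eq (by congr 1)) h4, fun i => (h5 i).imp fun _ _ h => gap_of h⟩
  · intro R V hV hsep
    obtain ⟨e, h1, h2, h3, h4⟩ := Run7.h166.TS.aff_rays 2 1 le_rfl isCoprime_one_right R V hV hsep
      (fun p hp _ h => absurd h (hno p hp))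
    exact ⟨e, h1, h2, h3, fun i n => gap_of (h4 i n)⟩

end Pool.Agent.Results.MP_77cbc6_nt.ExactGapsThreeLists
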