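import Mathlib
import Pool.Agent.Run7.h189.CO.Orders

/-!
# The order patterns of the gaps between the primes of Cunningham sequences, for all affine maps

Let `S x = a x + b` with integers `a ≥ 2` and `b` prime to `a` (`a = 2`, `b = 1`: `S^j(p) = c_j(p)`, the Cunningham
sequence of the first kind; `b = -1`: the second kind). For a prime `p` let `0 = t_0 < t_1 < t_2 < …` be the times
`t` for which `S^t(p)` is prime; the differences are the gaps. For every `k ≥ 3` the six orderings `orders k` of `k`
consecutive gaps, and their reversals, occur for infinitely many `p` (twelve orderings if `k ≥ 4`): in particular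
every ordering of three consecutive gaps, and every pattern of rises and falls of four consecutive gaps. Moreover
every gap is larger than any prescribed function `F` of each gap which has to be smaller, the times are at most `C`,
where `C` depends only on `F`, `R` and the ordering and NOT on the map `S`, the `R` values after time `t_k` are
composite and `p` is not one of the first `R` iterates of a prime.

Proof. The coloured Maynard-Tao theorem (starting files, `Pool.Agent.H362R2.CM.quarter`: a quarter of the classes of
linear forms is hit) is used for the forms `a^t n + b (a^t - 1)/(a - 1)`, with exact patterns; the configurations of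
groups of positions are those of the starting theorem on the orders of consecutive prime gaps
(`Pool.Agent.TH29.GO`), with all times divisible by `(R + 1) (TK)!`, so that there are no local obstructions.
-/

set_option autoImplicit false

namespace Pool.Agent.Results.MP_77cbc6_nt.OrdersOfExactGaps

/-- the `j`-th iterate of `x ↦ a x + b` at `x` -/
def S (a b : ℤ) (j : ℕ) (x : ℤ) : ℤ := (fun y : ℤ => a * y + b)^[j] x

/-- `Occurs lt`: for every function `F` and every `R` there is `C` such that for every map `S x = a x + b` with
`a ≥ 2` and `b` prime to `a` there are times `0 = t 0 < t 1 < ⋯ < t k ≤ C` with `F (t (i+1) - t i) < t (j+1) - t j` for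
all `i`, `j` with `lt i j`, such that for infinitely many primes `p`: for `j ≤ t k + R` the number `S^j(p)` is prime if
and only if `j` is one of the `t i`, `i ≤ k`, and `p` is none of the first `R` iterates of a prime `q`. -/
def Occurs {k : ℕ} (lt : Fin k → Fin k → Prop) : Prop :=
  ∀ (F : ℕ → ℕ) (R : ℕ), ∃ C : ℕ, ∀ a b : ℤ, 2 ≤ a → IsCoprime a b →
    ∃ t : ℕ → ℕ, t 0 = 0 ∧ (∀ i < k, t i < t (i + 1)) ∧ t k ≤ C ∧
      (∀ i j : Fin k, lt i j → F (t (i + 1) - t i) < t (j + 1) - t j) ∧
      {p : ℕ | p.Prime ∧ (∀ j ≤ t k + R, (S a b j p).toNat.Prime ↔ ∃ i ≤ k, j = t i) ∧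
        ∀ q j : ℕ, q.Prime → 0 < j → j ≤ R → S a b j q ≠ p}.Infinite

/-- Six orderings of `k` gaps: the gap number `i < k` has the rank `o i` among the `k` gaps.
In words, with ranks counted from `1`: `1, …, k`; `1, …, k-2, k, k-1`; `k-2, …, 1, k, k-1`;
`2, …, k, 1`; `k-1, …, 1, k`; `1, k, 2, …, k-1`. -/
def orders (k : ℕ) : List (ℕ → ℕ) :=
  [fun i => i,
   fun i => if i + 2 < k then i else 2 * k - 3 - i,
   fun i => if i + 2 < k then k - 3 - i else 2 * k - 3 - i,
   fun i => if i + 1 < k then i + 1 else 0,
   fun i => if i + 1 < k then k - 2 - i else k - 1,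
   fun i => if i = 0 then 0 else if i = 1 then k - 1 else i - 1]

theorem It_eq (a b : ℤ) (j : ℕ) (x : ℤ) : Run7.h189.CO.It a b j x = S a b j x := by
  induction j with
  | zero => exact Run7.h189.CO.It_zero a b x
  | succ j ih =>
    rw [Run7.h189.CO.It_succ, ih]
    unfold S
    rw [Function.iterate_succ_apply']

theorem occ {k : ℕ} {σ : ℕ → ℕ} (lt : Fin k → Fin k → Prop)
    (h : ∀ c₀, 1 ≤ c₀ → Pool.Agent.TH29.GO.Forces c₀ k σ) (hlt : ∀ i j, lt i j → σ i < σ j) : Occurs lt := by
  intro F R
  obtain ⟨C, hC⟩ := Run7.h189.CO.occurs_orb (h 4 (by norm_num)) F R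
  refine ⟨C, fun a b ha hab => ?_⟩
  obtain ⟨t, h1, h2, h3, h4, h5⟩ := hC a b ha hab
  refine ⟨t, h1, h2, h3, fun i j hij => h4 i j i.2 j.2 (hlt i j hij), ?_⟩
  simp only [It_eq] at h5
  exact h5

/-- Orderings of the gaps between consecutive primes of the orbits, see `Occurs`. For every `k ≥ 3` the six
orderings `orders k` of `k` consecutive gaps, and their reversals, occur. In particular every ordering of three
consecutive gaps occurs, and every pattern of rises (`ε l = true`) and falls (`ε l = false`) of four consecutive
gaps occurs. -/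
theorem result :
    (∀ k : ℕ, 3 ≤ k → ∀ o ∈ orders k, Occurs (fun i j : Fin k => o i < o j) ∧
      Occurs (fun i j : Fin k => o (k - 1 - i) < o (k - 1 - j))) ∧
    (∀ σ : Equiv.Perm (Fin 3), Occurs (fun i j : Fin 3 => σ i < σ j)) ∧
    (∀ ε : Fin 3 → Bool, Occurs (fun i j : Fin 4 => ∃ l : Fin 3,
      (ε l = true ∧ i = l.castSucc ∧ j = l.succ) ∨
        (ε l = false ∧ i = l.succ ∧ j = l.castSucc))) :=
  Pool.Agent.TH29.GO.orders_all (fun _ lt => Occurs lt) fun _ _ lt h hlt => occ lt h hlt

end Pool.Agent.Results.MP_77cbc6_nt.OrdersOfExactGaps
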